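import Pool.Agent.Helper58.FLP.BDef
import Pool.Agent.Helper36.FLP.Hm
import Pool.Agent.Helper53.FL2.Inj
import Pool.Agent.Helper64.FL2.SurjC

/-!
# Bridge, module FLP-B4: surjectivity on `k`-morphisms = lifting against the boundary of the `k`-cell
-/

open CategoryTheory MonoidalCategory CartesianMonoidalCategory Opposite Simplicial

set_option autoImplicit false

namespace Pool.Agent.Helper87.FLPSurj

open FL (SP MpS HoEq InjFib InjFibration Th Wr ptT Cn V1 V1map)
open FLP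
open Pool.Agent.Helper91.FL2 (objKan_of_injFib cn_of_htpy cn_symm cn_trans cn_map cn_refl
  htpy_of_cn)
open Pool.Agent.Helper54.FL2 (cn_lift)
open Helper53FL2 (pk susH susH_vsOf susH_vsEnd V1_extH desusH desusH_val V1map_vsOf V1map_vsEnd
  V1map_mono)
open Helper64FL2 (exists_vmap vmap_ext app_kanFib susp_lift)

/-! ### Isomorphisms -/

section

variable {A : Type} [SmallCategory A]

theorem injFib_of_iso {X X' : SP A} (e : X ≅ X') (h : InjFib X) : InjFib X' := by
  intro P Q i hi f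
  obtain ⟨g, hg⟩ := h i hi (f ≫ e.inv)
  refine ⟨g ≫ e.hom, ?_⟩
  rw [← Category.assoc, hg, Category.assoc, e.inv_hom_id, Category.comp_id]

theorem inv_sq {X X' Y Y' : SP A} {q : X ⟶ Y} {q' : X' ⟶ Y'} (e : X ≅ X')
    (e' : Y ≅ Y') (w : q ≫ e'.hom = e.hom ≫ q') : q' ≫ e'.symm.hom = e.symm.hom ≫ q := by
  show q' ≫ e'.inv = e.inv ≫ q
  rw [Iso.comp_inv_eq, Category.assoc, w, Iso.inv_hom_id_assoc]

theorem injFibration_of_iso {X X' Y Y' : SP A} {q : X ⟶ Y} {q' : X' ⟶ Y'} (e : X ≅ X')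
    (e' : Y ≅ Y') (w : q ≫ e'.hom = e.hom ≫ q') (h : InjFibration q) : InjFibration q' := by
  intro P Q i hi
  have := h i hi
  refine ⟨fun {f g} sq => ?_⟩
  have w' : e.inv ≫ q = q' ≫ e'.inv := by
    rw [Iso.inv_comp_eq, ← Category.assoc, ← w, Category.assoc, e'.hom_inv_id, Category.comp_id]
  have sq' : CommSq (f ≫ e.inv) i q (g ≫ e'.inv) := ⟨by
    rw [Category.assoc, w', ← Category.assoc, sq.w, Category.assoc]⟩
  refine ⟨⟨{ l := sq'.lift ≫ e.hom, fac_left := ?_, fac_right := ?_ }⟩⟩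
  · rw [← Category.assoc, sq'.fac_left, Category.assoc, e.inv_hom_id, Category.comp_id]
  · rw [Category.assoc, ← w, ← Category.assoc, sq'.fac_right, Category.assoc, e'.inv_hom_id,
      Category.comp_id]

end

/-- Lifting against the boundary of the `k`-cell. -/
def Lif (n k : ℕ) {X Y : SP (Th n)} (q : X ⟶ Y) : Prop :=
  ∀ (P Q : SP (Th n)) (b : P ⟶ Q), FL.IsBd n k b →
    ∀ (x : P ⟶ X) (y : Q ⟶ Y), x ≫ q = b ≫ y → ∃ z : Q ⟶ X, b ≫ z = x ∧ z ≫ q = y

theorem lif_of_iso {n k : ℕ} {X X' Y Y' : SP (Th n)} {q : X ⟶ Y} {q' : X' ⟶ Y'} (e : X ≅ X')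
    (e' : Y ≅ Y') (w : q ≫ e'.hom = e.hom ≫ q') (h : Lif n k q) : Lif n k q' := by
  intro P Q b hb x y hxy
  have w' : e.inv ≫ q = q' ≫ e'.inv := by
    rw [Iso.inv_comp_eq, ← Category.assoc, ← w, Category.assoc, e'.hom_inv_id, Category.comp_id]
  obtain ⟨z, hz1, hz2⟩ := h P Q b hb (x ≫ e.inv) (y ≫ e'.inv) (by
    rw [Category.assoc, w', ← Category.assoc, hxy, Category.assoc])
  refine ⟨z ≫ e.hom, ?_, ?_⟩
  · rw [← Category.assoc, hz1, Category.assoc, e.inv_hom_id, Category.comp_id]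
  · rw [Category.assoc, ← w, ← Category.assoc, hz2, Category.assoc, e'.inv_hom_id,
      Category.comp_id]

/-! ### Edges -/

theorem nm_app {K : SSet.{0}} (x : FLP.Vt K) :
    (FLP.nm x).app (op ⦋0⦌) PUnit.unit = x := FL.cst_zero K x

theorem edge_iff {K : SSet.{0}} (x y : FLP.Vt K) : FLP.Edge x y ↔ Cn K x y := by
  constructor
  · intro h
    have h1 := cn_of_htpy (F := FLP.nm x) (G := FLP.nm y) h PUnit.unit
    rwa [nm_app, nm_app] at h1
  · intro h
    have key : ∀ z : FLP.Vt K, FLP.nm (K := (Δ[0] : SSet.{0}))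
        (SSet.stdSimplex.objEquiv.symm (𝟙 _)) ≫ Pool.Agent.Helper91.FL2.pt K z = FLP.nm z := by
      intro z
      rw [FLP.nm_ev]
      exact congrArg FLP.nm (Pool.Agent.Helper91.FL2.pt_app z _)
    have h1 := Pool.Agent.Helper88.FL.htpy_pre (FLP.nm (K := (Δ[0] : SSet.{0}))
        (SSet.stdSimplex.objEquiv.symm (𝟙 _))) (htpy_of_cn h)
    rw [key, key] at h1
    exact h1

/-! ### Vertices -/

theorem pt_eq (n : ℕ) : FLP.pt n = ptT n := by
  cases n <;> rfl

theorem surj_zero_iff {n : ℕ} {X Y : SP (Th n)} (q : X ⟶ Y) : FLP.Surj n 0 q ↔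
    ∀ y : (Y.obj (op (ptT n))).obj (op ⦋0⦌), ∃ x : (X.obj (op (ptT n))).obj (op ⦋0⦌),
      Cn (Y.obj (op (ptT n))) ((q.app _).app _ x) y := by
  have h0 : FLP.Surj n 0 q ↔ ∀ y : FLP.Vt (vl Y (FLP.pt n)), ∃ x : FLP.Vt (vl X (FLP.pt n)),
      FLP.Edge (ev (q.app _) x) y := by
    constructor
    · intro h
      cases h with
      | zero _ _ h => exact h
    · intro h
      exact FLP.Surj.zero n q h
  rw [h0, pt_eq]
  constructor
  · intro h y
    obtain ⟨x, hx⟩ := h y
    exact ⟨x, (edge_iff _ _).1 hx⟩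
  · intro h y
    obtain ⟨x, hx⟩ := h y
    exact ⟨x, (edge_iff _ _).2 hx⟩

theorem surj_succ_iff {n k : ℕ} {X Y : SP (Wr (Th n))} (q : X ⟶ Y) :
    FLP.Surj (n + 1) (k + 1) (X := X) (Y := Y) q ↔
      ∀ x y : FLP.Vt (FLP.Ob X), FLP.Surj n k (FLP.HmMap q x y) := by
  constructor
  · intro h
    cases h with
    | succ _ _ _ h => exact h
  · intro h
    exact FLP.Surj.succ n k q h

theorem lif_zero_iff {n : ℕ} {X Y : SP (Th n)} (hY : InjFib Y) {q : X ⟶ Y}
    (hq : InjFibration q) : Lif n 0 q ↔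
      ∀ y : (Y.obj (op (ptT n))).obj (op ⦋0⦌), ∃ x : (X.obj (op (ptT n))).obj (op ⦋0⦌),
      Cn (Y.obj (op (ptT n))) ((q.app _).app _ x) y := by
  constructor
  · intro h y
    obtain ⟨y', hy'⟩ := exists_vmap Y y
    obtain ⟨z, -, hz⟩ := h _ _ _ (FL.IsBd.zero n)
      { app := fun a => { app := fun k => ↾ fun (u : PEmpty) => u.elim,
                          naturality := fun k l α => ConcreteCategory.hom_ext _ _
                            fun (u : PEmpty) => u.elim }
        naturality := fun a b f => NatTrans.ext (funext fun k => ConcreteCategory.hom_ext _ _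
          fun (u : PEmpty) => u.elim) } y'
      (NatTrans.ext (funext fun a => NatTrans.ext (funext fun k => ConcreteCategory.hom_ext _ _
          fun (u : PEmpty) => u.elim)))
    refine ⟨(z.app (op (ptT n))).app (op ⦋0⦌) PUnit.unit, ?_⟩
    have e : (q.app (op (ptT n))).app (op ⦋0⦌) ((z.app (op (ptT n))).app (op ⦋0⦌) PUnit.unit) =
        y := by
      rw [← hy', ← hz]
      rfl
    rw [e]
    exact cn_refl y
  · intro h P Q b hb x y hxy
    cases hb with
    | zero =>
      obtain ⟨x0, hx0⟩ := h ((y.app (op (ptT n))).app (op ⦋0⦌) PUnit.unit)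
      have hK := objKan_of_injFib hY (op (ptT n))
      obtain ⟨v, hv, -⟩ := cn_lift (app_kanFib hq (op (ptT n))) (cn_symm hK hx0)
      obtain ⟨z, hz⟩ := exists_vmap X v
      refine ⟨z, ?_, vmap_ext ?_⟩
      · refine NatTrans.ext (funext fun θ => NatTrans.ext (funext fun k => ?_))
        refine ConcreteCategory.hom_ext _ _ fun (u : PEmpty) => u.elim
      · refine Eq.trans ?_ hv
        exact congrArg ((q.app (op (ptT n))).app (op ⦋0⦌)) hz

/-! ### Suspension -/

theorem lif_succ_iff {n k : ℕ} {X Y : SP (Wr (Th n))} (q : X ⟶ Y) :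
    Lif (n + 1) (k + 1) (X := X) (Y := Y) q ↔ ∀ u v : FL.Vt X, Lif n k (FL.HmMap q u v) := by
  constructor
  · intro h u v P Q b hb x y hxy
    have hpk : ∀ i : Fin 2, pk (FL.vtMap q u) (FL.vtMap q v) i = FL.vtMap q (pk u v i) := by
      intro i
      fin_cases i
      · rfl
      · rfl
    obtain ⟨z, hz1, hz2⟩ := h _ _ _ (FL.IsBd.susp b hb) (susH x) (susH y) (by
      refine V1_extH (fun c l p => ?_) fun i l => ?_
      · refine (congrArg ((q.app (op (FL.seg c.unop))).app l) (susH_vsOf x c l p)).trans ?_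
        refine Eq.trans ?_ (susH_vsOf y c l ((b.app c).app l p)).symm
        exact congrArg (fun r : P ⟶ FL.Hm Y (FL.vtMap q u) (FL.vtMap q v) =>
          FL.Hm.val ((r.app c).app l p)) hxy
      · refine (congrArg ((q.app (op Wr.pt)).app l) (susH_vsEnd x i l)).trans ?_
        refine Eq.trans ?_ (congrArg (((susH y).app (op Wr.pt)).app l)
          (V1map_vsEnd b (op Wr.pt) l i)).symm
        refine Eq.trans ?_ (susH_vsEnd y i l).symm
        rw [hpk]
        exact FL.app_cst (q.app (op Wr.pt)) (pk u v i) l)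
    have hz : ∀ (i : Fin 2) (l : SimplexCategoryᵒᵖ),
        (z.app (op Wr.pt)).app l (FL.vsEnd Q i Wr.pt l) =
          FL.cst (X.obj (op Wr.pt)) (pk u v i) l := by
      intro i l
      have e1 := congrArg (fun r : V1 P ⟶ X => (r.app (op Wr.pt)).app l
        (FL.vsEnd P i Wr.pt l)) hz1
      have e2 : (z.app (op Wr.pt)).app l (((V1map b).app (op Wr.pt)).app l
          (FL.vsEnd P i Wr.pt l)) = (z.app (op Wr.pt)).app l (FL.vsEnd Q i Wr.pt l) :=
        congrArg ((z.app (op Wr.pt)).app l) (V1map_vsEnd b (op Wr.pt) l i)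
      exact e2.symm.trans (e1.trans (susH_vsEnd x i l))
    refine ⟨desusH z hz, ?_, ?_⟩
    · refine NatTrans.ext (funext fun c => NatTrans.ext (funext fun l => ?_))
      refine ConcreteCategory.hom_ext _ _ fun p => ?_
      refine Subtype.ext ?_
      refine Eq.trans ?_ (susH_vsOf x c l p)
      exact congrArg (fun r : V1 P ⟶ X => (r.app (op (FL.seg c.unop))).app l (FL.vsOf P p)) hz1
    · refine NatTrans.ext (funext fun c => NatTrans.ext (funext fun l => ?_))
      refine ConcreteCategory.hom_ext _ _ fun p => ?_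
      refine Subtype.ext ?_
      refine Eq.trans ?_ (susH_vsOf y c l p)
      exact congrArg (fun r : V1 Q ⟶ Y => (r.app (op (FL.seg c.unop))).app l (FL.vsOf Q p)) hz2
  · intro h P Q b hb x y hxy
    cases hb with
    | susp b' hb' =>
      rename_i P Q
      let u : FL.Vt X := (x.app (op Wr.pt)).app (op ⦋0⦌) (FL.vsEnd P 0 Wr.pt (op ⦋0⦌))
      let v : FL.Vt X := (x.app (op Wr.pt)).app (op ⦋0⦌) (FL.vsEnd P 1 Wr.pt (op ⦋0⦌))
      refine susp_lift q u v b' (h u v P Q b' hb') x y hxy ?_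
      intro i l
      have hx0 : (x.app (op Wr.pt)).app (op ⦋0⦌) (FL.vsEnd P i Wr.pt (op ⦋0⦌)) = pk u v i := by
        fin_cases i
        · rfl
        · rfl
      rw [← hx0]
      refine Eq.trans ?_ (FL.hom_natk x (SimplexCategory.const l.unop ⦋0⦌ 0).op
        (FL.vsEnd P i Wr.pt (op ⦋0⦌)))
      refine congrArg ((x.app (op Wr.pt)).app l) ?_
      exact FL.VS.ext' rfl fun (p : Fin 0) => p.elim0

theorem surj_iff_lif (k : ℕ) : ∀ {n : ℕ}, k ≤ n → ∀ {X Y : SP (Th n)}, InjFib X → InjFib Y →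
    ∀ {q : X ⟶ Y}, InjFibration q → (FLP.Surj n k q ↔ Lif n k q) := by
  induction k with
  | zero =>
    intro n _ X Y _ hY q hq
    rw [surj_zero_iff, lif_zero_iff hY hq]
  | succ k ih =>
    intro n hk X Y hX hY q hq
    obtain ⟨n, rfl⟩ : ∃ m, n = m + 1 := ⟨n - 1, by omega⟩
    obtain ⟨e, he⟩ := Pool.Agent.Helper36.FLPHm.exists_hmIso (C := Th n)
    refine (surj_succ_iff (n := n) (k := k) (X := X) (Y := Y) q).trans
      (Iff.trans ?_ (lif_succ_iff (n := n) (k := k) (X := X) (Y := Y) q).symm)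
    refine forall_congr' fun u => forall_congr' fun v => ?_
    have hX' : InjFib (FLP.Hm (C := Th n) X u v) :=
      injFib_of_iso (e X u v) (Helper53FL2.Hm_injFib (C := Th n) (X := X) hX u v)
    have hY' : InjFib (FLP.Hm (C := Th n) Y (FL.vtMap (C := Th n) (X := X) (Y := Y) q u)
        (FL.vtMap (C := Th n) (X := X) (Y := Y) q v)) :=
      injFib_of_iso (e Y _ _) (Helper53FL2.Hm_injFib (C := Th n) (X := Y) hY _ _)
    have hq' : InjFibration (FLP.HmMap (C := Th n) (X := X) (Y := Y) q u v) :=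
      injFibration_of_iso (e X u v) (e Y _ _) (he (X := X) (Y := Y) q u v)
        (Helper53FL2.HmMap_injFibration (C := Th n) (X := X) (Y := Y) hq u v)
    refine (ih (n := n) (by omega) hX' hY' hq').trans ?_
    constructor
    · intro h
      exact lif_of_iso (e X u v).symm (e Y _ _).symm
        (inv_sq (e X u v) (e Y _ _) (he (X := X) (Y := Y) q u v)) h
    · intro h
      exact lif_of_iso (e X u v) (e Y _ _) (he (X := X) (Y := Y) q u v) h

theorem surj_iff {n k : ℕ} (hk : k ≤ n) {X Y : SP (Th n)} (hX : InjFib X) (hY : InjFib Y)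
    {q : X ⟶ Y} (hq : InjFibration q) :
    FLP.Surj n k q ↔ ∀ (P Q : SP (Th n)) (b : P ⟶ Q), FL.IsBd n k b →
      ∀ (x : P ⟶ X) (y : Q ⟶ Y), x ≫ q = b ≫ y → ∃ z : Q ⟶ X, b ≫ z = x ∧ z ≫ q = y :=
  surj_iff_lif k hk hX hY hq

end Pool.Agent.Helper87.FLPSurj
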